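import Pool.Agent.Lib.MP_cdd7b4_an.MX.Iface

set_option autoImplicit false

/-! # SELFB: the norm is self-bounding in the rows -/

namespace Pool.Agent.Lib.MP_cdd7b4_an.MX.H94

open Pool.Agent.Lib.MP_cdd7b4_an.H80 (av av_equiv av_const av_add av_sub av_mono av_nonneg
  av_const_mul av_mul_const av_sum av_inv av_coord)
open scoped BigOperators

/-- The norm of a sum is self-bounding. -/
theorem sum_norm_sub_le (𝕜 : Type*) [RCLike 𝕜] {X : Type*} [NormedAddCommGroup X]
    [NormedSpace 𝕜 X] {S : Type} [Fintype S] (z : S → X) :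
    ∑ s, (‖∑ t, z t‖ - ‖∑ t, z t - z s‖) ≤ ‖∑ t, z t‖ := by
  obtain ⟨g, hg1, hg2⟩ := exists_dual_vector'' 𝕜 (∑ t, z t)
  have h1 : ∀ s, ‖∑ t, z t‖ - ‖∑ t, z t - z s‖ ≤ RCLike.re (g (z s)) := by
    intro s
    have h2 : RCLike.re (g (∑ t, z t - z s)) ≤ ‖∑ t, z t - z s‖ := by
      refine (RCLike.re_le_norm _).trans ((g.le_opNorm _).trans ?_)
      exact mul_le_of_le_one_left (norm_nonneg _) hg1
    rw [map_sub, hg2, map_sub, RCLike.ofReal_re] at h2
    linarith
  refine (Finset.sum_le_sum fun s _ => h1 s).trans ?_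
  rw [← map_sum, ← map_sum, hg2, RCLike.ofReal_re]

theorem selfb (𝕜 : Type*) [RCLike 𝕜] (X : Type*) [NormedAddCommGroup X] [NormedSpace 𝕜 X]
    (hE : EfronStatement) (hU : UncStatement 𝕜 X) (_ : MargStatement) : SelfbStatement 𝕜 X := by
  intro I Ω S _ _ _ _ _ _ U M hsym hM w b hw
  rcases isEmpty_or_nonempty S with hS | hS
  · have h0 : ∀ π : S → I, NR 𝕜 U π w 0 = 0 := by
      intro π
      unfold NR NU
      simp [av_const]
    simp only [h0]
    rw [av_const]
    simp [av_const]
  let f : (S → I) → ℝ := fun π => NR 𝕜 U π w 0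
  let g : S → (S → I) → ℝ := fun s π => NR 𝕜 U π (Function.update w s 0) 0
  have hb0 : 0 ≤ b := by
    obtain ⟨s⟩ := hS
    exact (hw s).1.trans (hw s).2
  have hM0 : 0 ≤ M := by
    obtain ⟨i⟩ := (inferInstance : Nonempty I)
    exact (av_nonneg fun κ => norm_nonneg _).trans (hM i)
  -- removing a row is subtracting its vector
  have hrem : ∀ (s : S) (π : S → I) (κ : S → Ω),
      ∑ t, ((Function.update w s 0 t : ℝ) : 𝕜) • U (π t) (κ t) + 0 =
        ∑ t, ((w t : ℝ) : 𝕜) • U (π t) (κ t) - ((w s : ℝ) : 𝕜) • U (π s) (κ s) := by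
    intro s π κ
    rw [add_zero, eq_sub_iff_add_eq, ← Finset.sum_erase_add _ _ (Finset.mem_univ s),
      Function.update_self, RCLike.ofReal_zero, zero_smul, add_zero,
      ← Finset.sum_erase_add (f := fun t => ((w t : ℝ) : 𝕜) • U (π t) (κ t)) _
        (Finset.mem_univ s)]
    congr 1
    refine Finset.sum_congr rfl fun t ht => ?_
    rw [Function.update_of_ne (Finset.ne_of_mem_erase ht)]
  have hg : ∀ (s : S) (π : S → I) (i : I), g s (Function.update π s i) = g s π := by
    intro s π i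
    show NU U _ _ 0 = NU U _ _ 0
    unfold NU
    congr 1
    funext κ
    congr 2
    refine Finset.sum_congr rfl fun t _ => ?_
    by_cases hts : t = s
    · subst hts
      rw [Function.update_self]
      simp
    · rw [Function.update_of_ne hts]
  have hle : ∀ s π, g s π ≤ f π := by
    intro s π
    refine (hU I Ω S U hsym π _ _).1 fun t => ?_
    by_cases hts : t = s
    · subst hts
      refine ⟨0, by simp, ?_⟩
      rw [Function.update_self]
      simp
    · refine ⟨1, by simp, ?_⟩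
      rw [Function.update_of_ne hts]
      simp
  have hdiff : ∀ s π, f π - g s π ≤ b * M := by
    intro s π
    have h1 : f π ≤ g s π + av (fun κ : S → Ω => ‖((w s : ℝ) : 𝕜) • U (π s) (κ s)‖) := by
      show NU U π _ 0 ≤ NU U π _ 0 + _
      unfold NU
      rw [← av_add]
      refine av_mono fun κ => ?_
      rw [hrem s π κ, add_zero]
      have := norm_add_le (∑ t, ((w t : ℝ) : 𝕜) • U (π t) (κ t) - ((w s : ℝ) : 𝕜) • U (π s) (κ s))
        (((w s : ℝ) : 𝕜) • U (π s) (κ s))
      rwa [sub_add_cancel] at this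
    have h2 : av (fun κ : S → Ω => ‖((w s : ℝ) : 𝕜) • U (π s) (κ s)‖) =
        w s * av (fun κ => ‖U (π s) κ‖) := by
      rw [← av_const_mul, ← av_coord s (fun κ => w s * ‖U (π s) κ‖)]
      congr 1
      funext κ
      rw [norm_smul, RCLike.norm_ofReal, abs_of_nonneg (hw s).1]
    rw [h2] at h1
    have h3 : w s * av (fun κ => ‖U (π s) κ‖) ≤ b * M :=
      mul_le_mul (hw s).2 (hM _) (av_nonneg fun κ => norm_nonneg _) hb0
    linarith
  have hsum : ∀ π, ∑ s, (f π - g s π) ≤ f π := by
    intro π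
    have h1 : ∑ s, (f π - g s π) = av (fun κ : S → Ω =>
        ∑ s, (‖∑ t, ((w t : ℝ) : 𝕜) • U (π t) (κ t)‖ -
          ‖∑ t, ((w t : ℝ) : 𝕜) • U (π t) (κ t) - ((w s : ℝ) : 𝕜) • U (π s) (κ s)‖)) := by
      rw [av_sum]
      refine Finset.sum_congr rfl fun s _ => ?_
      rw [av_sub]
      show NU U π _ 0 - NU U π _ 0 = _
      unfold NU
      congr 1
      · congr 1
        funext κ
        rw [add_zero]
      · congr 1
        funext κ
        rw [hrem s π κ]
    rw [h1]
    show _ ≤ NU U π _ 0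
    unfold NU
    refine av_mono fun κ => ?_
    rw [add_zero]
    exact sum_norm_sub_le 𝕜 (fun t => ((w t : ℝ) : 𝕜) • U (π t) (κ t))
  have h1 := hE S I f g hg
  show av (fun π => (f π - av f) ^ 2) ≤ b * M * av f
  refine h1.trans ?_
  have h2 : ∀ s, av (fun π => (f π - g s π) ^ 2) ≤ av (fun π => b * M * (f π - g s π)) := by
    intro s
    refine av_mono fun π => ?_
    have := hle s π
    have := hdiff s π
    nlinarith
  refine (Finset.sum_le_sum fun s _ => h2 s).trans ?_
  rw [← av_sum]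
  have h3 : (fun π => ∑ s, b * M * (f π - g s π)) = fun π => b * M * ∑ s, (f π - g s π) := by
    funext π
    rw [Finset.mul_sum]
  rw [h3, av_const_mul]
  exact mul_le_mul_of_nonneg_left (av_mono hsum) (mul_nonneg hb0 hM0)

end Pool.Agent.Lib.MP_cdd7b4_an.MX.H94
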