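import Pool.Agent.Lib.MP_cdd7b4_an.MX.Iface

set_option autoImplicit false

/-! # UNC: independent symmetric vectors are unconditional -/

namespace Pool.Agent.Lib.MP_cdd7b4_an.MX.H94

open Pool.Agent.Lib.MP_cdd7b4_an.H80 (av av_equiv av_const av_add av_sub av_mono av_nonneg
  av_const_mul av_mul_const av_sum av_inv)
open scoped BigOperators

section

variable {𝕜 : Type*} [RCLike 𝕜] {X : Type*} [NormedAddCommGroup X] [NormedSpace 𝕜 X]

/-- The elementary inequality behind the contraction principle. -/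
theorem two_pt (z x : X) (θ : ℝ) (h : |θ| ≤ 1) :
    ‖z + (θ : 𝕜) • x‖ + ‖z - (θ : 𝕜) • x‖ ≤ ‖z + x‖ + ‖z - x‖ := by
  obtain ⟨h1, h2⟩ := abs_le.1 h
  have hp : ‖((((1 + θ) / 2 : ℝ)) : 𝕜)‖ = (1 + θ) / 2 := by
    rw [RCLike.norm_ofReal, abs_of_nonneg (by linarith)]
  have hm : ‖((((1 - θ) / 2 : ℝ)) : 𝕜)‖ = (1 - θ) / 2 := by
    rw [RCLike.norm_ofReal, abs_of_nonneg (by linarith)]
  have e1 : z + (θ : 𝕜) • x = (((1 + θ) / 2 : ℝ) : 𝕜) • (z + x) + (((1 - θ) / 2 : ℝ) : 𝕜) • (z - x) := by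
    rw [smul_add, smul_sub]
    push_cast
    have a1 : z = ((1 + (θ : 𝕜)) / 2) • z + ((1 - (θ : 𝕜)) / 2) • z := by
      rw [← add_smul]
      have : (1 + (θ : 𝕜)) / 2 + (1 - (θ : 𝕜)) / 2 = 1 := by ring
      rw [this, one_smul]
    have a2 : (θ : 𝕜) • x = ((1 + (θ : 𝕜)) / 2) • x - ((1 - (θ : 𝕜)) / 2) • x := by
      rw [← sub_smul]
      congr 1
      ring
    conv_lhs => rw [a1, a2]
    abel
  have e2 : z - (θ : 𝕜) • x = (((1 - θ) / 2 : ℝ) : 𝕜) • (z + x) + (((1 + θ) / 2 : ℝ) : 𝕜) • (z - x) := by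
    rw [smul_add, smul_sub]
    push_cast
    have a1 : z = ((1 - (θ : 𝕜)) / 2) • z + ((1 + (θ : 𝕜)) / 2) • z := by
      rw [← add_smul]
      have : (1 - (θ : 𝕜)) / 2 + (1 + (θ : 𝕜)) / 2 = 1 := by ring
      rw [this, one_smul]
    have a2 : (θ : 𝕜) • x = ((1 + (θ : 𝕜)) / 2) • x - ((1 - (θ : 𝕜)) / 2) • x := by
      rw [← sub_smul]
      congr 1
      ring
    conv_lhs => rw [a1, a2]
    abel
  have b1 : ‖z + (θ : 𝕜) • x‖ ≤ (1 + θ) / 2 * ‖z + x‖ + (1 - θ) / 2 * ‖z - x‖ := by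
    rw [e1]
    refine (norm_add_le _ _).trans ?_
    rw [norm_smul, norm_smul, hp, hm]
  have b2 : ‖z - (θ : 𝕜) • x‖ ≤ (1 - θ) / 2 * ‖z + x‖ + (1 + θ) / 2 * ‖z - x‖ := by
    rw [e2]
    refine (norm_add_le _ _).trans ?_
    rw [norm_smul, norm_smul, hp, hm]
  linarith

variable {I Ω S : Type} [Fintype Ω] [Fintype S] [DecidableEq S]

/-- One coordinate. -/
theorem unc_one (U : I → Ω → X) (hU : Symm U) (π : S → I) (a b : S → 𝕜) (i : S) (θ : ℝ)
    (hθ : |θ| ≤ 1) (hi : b i = (θ : 𝕜) * a i) (hne : ∀ s, s ≠ i → b s = a s) :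
    NU U π b 0 ≤ NU U π a 0 := by
  obtain ⟨τ, hτ, hτU⟩ := hU
  let F : (S → Ω) → (S → Ω) := fun κ => Function.update κ i (τ (κ i))
  have hF : Function.Involutive F := by
    intro κ
    show Function.update (Function.update κ i (τ (κ i))) i
      (τ (Function.update κ i (τ (κ i)) i)) = κ
    rw [Function.update_self, hτ, Function.update_idem, Function.update_eq_self]
  let z : (S → Ω) → X := fun κ => ∑ s ∈ Finset.univ.erase i, a s • U (π s) (κ s)
  let x : (S → Ω) → X := fun κ => a i • U (π i) (κ i)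
  have hz : ∀ κ, z (F κ) = z κ := by
    intro κ
    refine Finset.sum_congr rfl fun s hs => ?_
    show a s • U (π s) (Function.update κ i (τ (κ i)) s) = _
    rw [Function.update_of_ne (Finset.ne_of_mem_erase hs)]
  have hx : ∀ κ, x (F κ) = - x κ := by
    intro κ
    show a i • U (π i) (Function.update κ i (τ (κ i)) i) = -(a i • U (π i) (κ i))
    rw [Function.update_self, hτU, smul_neg]
  have ha : ∀ κ, ∑ s, a s • U (π s) (κ s) + 0 = z κ + x κ := by
    intro κ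
    rw [add_zero]
    exact (Finset.sum_erase_add _ _ (Finset.mem_univ i)).symm
  have hb : ∀ κ, ∑ s, b s • U (π s) (κ s) + 0 = z κ + (θ : 𝕜) • x κ := by
    intro κ
    rw [add_zero, ← Finset.sum_erase_add _ _ (Finset.mem_univ i)]
    congr 1
    · refine Finset.sum_congr rfl fun s hs => ?_
      rw [hne s (Finset.ne_of_mem_erase hs)]
    · rw [hi, mul_smul]
  have key : ∀ G : (S → Ω) → ℝ, av G = av (fun κ => (G κ + G (F κ)) * 2⁻¹) := by
    intro G
    rw [av_mul_const, av_add, av_inv hF]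
    ring
  unfold NU
  simp only [ha, hb]
  rw [key (fun κ => ‖z κ + (θ : 𝕜) • x κ‖), key (fun κ => ‖z κ + x κ‖)]
  refine av_mono fun κ => ?_
  have h1 := two_pt (𝕜 := 𝕜) (z κ) (x κ) θ hθ
  show (‖z κ + (θ : 𝕜) • x κ‖ + ‖z (F κ) + (θ : 𝕜) • x (F κ)‖) * 2⁻¹ ≤
    (‖z κ + x κ‖ + ‖z (F κ) + x (F κ)‖) * 2⁻¹
  rw [hz, hx, smul_neg, ← sub_eq_add_neg, ← sub_eq_add_neg]
  exact mul_le_mul_of_nonneg_right h1 (by norm_num)

theorem unc_a (U : I → Ω → X) (hU : Symm U) (π : S → I) (u v : S → 𝕜)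
    (h : ∀ s, ∃ θ : ℝ, |θ| ≤ 1 ∧ u s = (θ : 𝕜) * v s) : NU U π u 0 ≤ NU U π v 0 := by
  classical
  choose θ hθ hu using h
  have key : ∀ T : Finset S, NU U π (fun s => if s ∈ T then u s else v s) 0 ≤ NU U π v 0 := by
    intro T
    induction T using Finset.induction_on with
    | empty => simp
    | insert i T hi ih =>
      refine le_trans ?_ ih
      refine unc_one U hU π _ _ i (θ i) (hθ i) ?_ ?_
      · show (if i ∈ insert i T then u i else v i) = (θ i : 𝕜) * (if i ∈ T then u i else v i)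
        rw [if_pos (Finset.mem_insert_self _ _), if_neg hi, hu]
      · intro s hs
        show (if s ∈ insert i T then u s else v s) = (if s ∈ T then u s else v s)
        have : s ∈ insert i T ↔ s ∈ T := by
          rw [Finset.mem_insert]
          exact ⟨fun h => h.resolve_left hs, Or.inr⟩
        simp only [this]
  have := key Finset.univ
  simpa using this

theorem unc_b (U : I → Ω → X) (hU : Symm U) (π : S → I) (u v : S → 𝕜)
    (h : ∀ s, ‖u s‖ ≤ ‖v s‖) : NU U π u 0 ≤ 2 * NU U π v 0 := by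
  have hζ : ∀ s, ∃ ζ : 𝕜, ‖ζ‖ ≤ 1 ∧ u s = ζ * v s := by
    intro s
    by_cases hv : v s = 0
    · refine ⟨0, by simp, ?_⟩
      have h1 := h s
      rw [hv, norm_zero] at h1
      rw [zero_mul]
      exact norm_le_zero_iff.1 h1
    · refine ⟨u s / v s, ?_, (div_mul_cancel₀ _ hv).symm⟩
      rw [norm_div]
      exact div_le_one_of_le₀ (h s) (norm_nonneg _)
  choose ζ hζ1 hζ2 using hζ
  have h1 : NU U π (fun s => ((RCLike.re (ζ s) : ℝ) : 𝕜) * v s) 0 ≤ NU U π v 0 :=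
    unc_a U hU π _ _ fun s => ⟨RCLike.re (ζ s), (RCLike.abs_re_le_norm _).trans (hζ1 s), rfl⟩
  have h2 : NU U π (fun s => ((RCLike.im (ζ s) : ℝ) : 𝕜) * v s) 0 ≤ NU U π v 0 :=
    unc_a U hU π _ _ fun s => ⟨RCLike.im (ζ s), (RCLike.abs_im_le_norm _).trans (hζ1 s), rfl⟩
  have h3 : NU U π u 0 ≤ NU U π (fun s => ((RCLike.re (ζ s) : ℝ) : 𝕜) * v s) 0 +
      NU U π (fun s => ((RCLike.im (ζ s) : ℝ) : 𝕜) * v s) 0 := by
    unfold NU
    rw [← av_add]
    refine av_mono fun κ => ?_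
    have e : ∑ s, u s • U (π s) (κ s) + 0 =
        (∑ s, (((RCLike.re (ζ s) : ℝ) : 𝕜) * v s) • U (π s) (κ s) + 0) +
          (RCLike.I : 𝕜) • (∑ s, (((RCLike.im (ζ s) : ℝ) : 𝕜) * v s) • U (π s) (κ s) + 0) := by
      rw [add_zero, add_zero, add_zero, Finset.smul_sum, ← Finset.sum_add_distrib]
      refine Finset.sum_congr rfl fun s _ => ?_
      rw [smul_smul, ← add_smul, hζ2]
      congr 1
      conv_lhs => rw [← RCLike.re_add_im (ζ s)]
      ring
    rw [e]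
    refine (norm_add_le _ _).trans ?_
    refine add_le_add le_rfl ?_
    rw [norm_smul]
    have hI : ‖(RCLike.I : 𝕜)‖ ≤ 1 := by
      rcases RCLike.I_mul_I (K := 𝕜) with h0 | h0
      · rw [h0]; simp
      · have := congrArg norm h0
        rw [norm_mul, norm_neg, norm_one] at this
        nlinarith [norm_nonneg (RCLike.I : 𝕜)]
    exact mul_le_of_le_one_left (norm_nonneg _) hI
  linarith

end

theorem unc (𝕜 : Type*) [RCLike 𝕜] (X : Type*) [NormedAddCommGroup X] [NormedSpace 𝕜 X]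
    (_ : MargStatement) : UncStatement 𝕜 X := by
  intro I Ω S _ _ _ _ U hU π u v
  exact ⟨unc_a U hU π u v, unc_b U hU π u v⟩

end Pool.Agent.Lib.MP_cdd7b4_an.MX.H94
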